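import Pool.Agent.H546.TFfin

set_option autoImplicit false

/-!
# `∑ C(-1/3,k) C(-1/6,k) (-4)^k` and `∑ C(-2/3,k) C(-5/6,k) (-4)^k` modulo `p²` (Q1)

The proof: modulo `p²` the sums are combinations of the Legendre polynomials `P_n(√5)`, `n = ⌊p/3⌋, ⌊2p/3⌋, ⌊4p/3⌋,
⌊5p/3⌋`; the elliptic curve `y² = x³ + (6A-27)x + (A²-18A+54)`, `A = 2 - 2√5`, with complex multiplication by the
order of discriminant `-60`, has isogenies of degrees `5` and `3` to its conjugate; over the Witt vectors of an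
algebraic closure of `ZMod p` a combination of degree `p` lifts the Frobenius, its sign is read off from the
point of order three, and comparing expansions modulo `p²` gives the values of the combinations.
-/

open Finset

namespace Pool.Agent.Results.MP_a378b9_nt.MinusFour

/-- the generalised binomial coefficient `a (a-1) ⋯ (a-k+1) / k!` -/
def gb (a : ℚ) (k : ℕ) : ℚ := (∏ i ∈ range k, (a - i)) / (k.factorial : ℚ)

/-- the sum `S_p` -/
def S (p : ℕ) : ℚ := ∑ k ∈ range p, gb (-1 / 3) k * gb (-1 / 6) k * (-4) ^ k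

/-- the sum `T_p` -/
def T (p : ℕ) : ℚ := ∑ k ∈ range p, gb (-2 / 3) k * gb (-5 / 6) k * (-4) ^ k

/-- `ε_p = (5/p) 5^((1-(p/3))/2)` -/
def eps (p : ℕ) : ℚ := jacobiSym 5 p * 5 ^ ((1 - jacobiSym p 3) / 2)

/-- congruence modulo `p²` of rational numbers: `(a - b) / p²` has denominator prime to `p` -/
def Cong (p : ℕ) (a b : ℚ) : Prop := p.Coprime ((a - b) / (p : ℚ) ^ 2).den

theorem leg3_int (x : ℤ) (h : ¬ (3 : ℤ) ∣ x) :
    (jacobiSym x 3 = 1 ∨ jacobiSym x 3 = -1) ∧ (3 : ℤ) ∣ x - jacobiSym x 3 := by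
  have h0 : jacobiSym x 3 = legendreSym 3 x := (jacobiSym.legendreSym.to_jacobiSym 3 x).symm
  rw [h0, legendreSym.mod]
  have hm : x % ((3 : ℕ) : ℤ) = 1 ∨ x % ((3 : ℕ) : ℤ) = 2 := by push_cast; omega
  have e1 : legendreSym 3 1 = 1 := by decide
  have e2 : legendreSym 3 2 = -1 := by decide
  rcases hm with hm | hm
  · rw [hm, e1]; push_cast at hm; exact ⟨Or.inl rfl, by omega⟩
  · rw [hm, e2]; push_cast at hm; exact ⟨Or.inr rfl, by omega⟩

theorem leg3_p {p : ℕ} [hp : Fact p.Prime] (h3 : p ≠ 3) :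
    (p % 3 = 1 ∧ jacobiSym p 3 = 1) ∨ (p % 3 = 2 ∧ jacobiSym p 3 = -1) := by
  have h0 : p % 3 ≠ 0 := by
    intro h0
    have := (Nat.prime_dvd_prime_iff_eq Nat.prime_three hp.out).mp (Nat.dvd_of_mod_eq_zero h0)
    omega
  have h : jacobiSym p 3 = legendreSym 3 p := (jacobiSym.legendreSym.to_jacobiSym 3 p).symm
  rw [h, legendreSym.mod]
  have hc : ((p : ℤ) % ((3 : ℕ) : ℤ)) = ((p % 3 : ℕ) : ℤ) := by norm_cast
  rw [hc, Pool.Agent.H546.leg3_aux _ (Nat.mod_lt _ (by norm_num)) h0]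
  have : p % 3 = 1 ∨ p % 3 = 2 := by omega
  rcases this with h | h
  · left; rw [if_pos h]; exact ⟨h, rfl⟩
  · right; rw [if_neg (by omega)]; exact ⟨h, rfl⟩

open Pool.Agent.H546 in
/-- the transfer -/
theorem main (p : ℕ) [hp : Fact p.Prime] (h16 : 16 ≤ p) (x y : ℤ) (h3 : ¬ (3 : ℤ) ∣ x) (hpx : ¬ (p : ℤ) ∣ x) :
    (p % 3 = 1 → legendreSym p 5 = 1 → (p : ℤ) = x ^ 2 + 15 * y ^ 2 →
      Cong p (S p) (jacobiSym x 3 * (2 * x - p / (2 * x))) ∧
      Cong p (1 * T p) (jacobiSym x 3 * (2 * x - p / (2 * x)))) ∧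
    (p % 3 = 2 → legendreSym p 5 = -1 → (p : ℤ) = 5 * x ^ 2 + 3 * y ^ 2 →
      Cong p (S p) (-jacobiSym x 3 * (10 * x - p / (2 * x))) ∧
      Cong p (-5 * T p) (-jacobiSym x 3 * (10 * x - p / (2 * x)))) := by
  have hp2 : p ≠ 2 := by omega
  have hq := SW_q p
  have : CharZero (KO p) := charZero_K (SW p) hq
  have n5 : ¬ (p : ℤ) ∣ 5 := by
    have := ndvd_of_primes p (n := 5) (l := [5]) (by simp; norm_num) (by norm_num) (by simp; omega)
    exact_mod_cast this
  have n3 : ¬ (p : ℤ) ∣ -3 := by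
    rw [dvd_neg]
    have := ndvd_of_primes p (n := 3) (l := [3]) (by simp; norm_num) (by norm_num) (by simp; omega)
    exact_mod_cast this
  have n6 : ¬ (p : ℤ) ∣ 6 := by
    have := ndvd_of_primes p (n := 6) (l := [2, 3]) (by simp; norm_num) (by norm_num) (by simp; omega)
    exact_mod_cast this
  obtain ⟨σ, hσ⟩ := wo_isqrt p hp2 n5
  obtain ⟨ρ, hρ⟩ := wo_isqrt p hp2 n3
  obtain ⟨v, hv⟩ := ((SW p).unit_of_red ((SW p).two_ne hp2)).exists_right_inv
  have r6 : (SW p).red 6 ≠ 0 := by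
    have := (SW p).int_ne (p := p) n6
    exact_mod_cast this
  obtain ⟨i6, h6⟩ := ((SW p).unit_of_red r6).exists_right_inv
  obtain ⟨iv, hiv⟩ := iv_exists (SW p) (p := p)
  obtain ⟨hε, h3x⟩ := leg3_int x h3
  obtain ⟨m1, m2⟩ := tf_main (SW p) hq h16 (by exact_mod_cast hσ) (by exact_mod_cast hρ) hv hiv h6 x y _ hε h3x
  have h6K : (6 : KO p) * algebraMap (WO p) (KO p) i6 = 1 := by
    have := congrArg (algebraMap (WO p) (KO p)) h6
    rwa [map_mul, map_ofNat, map_one] at this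
  have e6 : algebraMap (WO p) (KO p) i6 = 1 / 6 := by
    have h60 : (6 : KO p) ≠ 0 := by norm_num
    rw [eq_div_iff h60]; linear_combination h6K
  have hS : ((S p : ℚ) : KO p) = algebraMap (WO p) (KO p) (hyp iv p (2 * i6) i6 (-4)) := by
    have := sum_K (K := KO p) (p := p) hiv (a := 1 / 3) (b := 1 / 6) (T := -4) (a' := 2 * i6) (b' := i6) (t := -4)
      (by rw [map_mul, map_ofNat, e6]; push_cast; norm_num) (by rw [e6]; push_cast; rfl)
      (by rw [map_neg, map_ofNat]; push_cast; rfl)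
    rw [← this]
    congr 1
    unfold S
    refine sum_congr rfl fun k _ => ?_
    rw [show (-1 / 3 : ℚ) = -(1 / 3) by ring, show (-1 / 6 : ℚ) = -(1 / 6) by ring]
    rfl
  have hT : ((T p : ℚ) : KO p) = algebraMap (WO p) (KO p) (hyp iv p (4 * i6) (5 * i6) (-4)) := by
    have := sum_K (K := KO p) (p := p) hiv (a := 2 / 3) (b := 5 / 6) (T := -4) (a' := 4 * i6) (b' := 5 * i6) (t := -4)
      (by rw [map_mul, map_ofNat, e6]; push_cast; norm_num) (by rw [map_mul, map_ofNat, e6]; push_cast; norm_num)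
      (by rw [map_neg, map_ofNat]; push_cast; rfl)
    rw [← this]
    congr 1
    unfold T
    refine sum_congr rfl fun k _ => ?_
    rw [show (-2 / 3 : ℚ) = -(2 / 3) by ring, show (-5 / 6 : ℚ) = -(5 / 6) by ring]
    rfl
  have hpz : Prime (p : ℤ) := Nat.prime_iff_prime_int.mp hp.out
  have hX : ¬ (p : ℤ) ∣ 2 * x := by
    intro h
    rcases hpz.dvd_or_dvd h with h | h
    · have := ndvd_of_primes p (n := 2) (l := [2]) (by simp; norm_num) (by norm_num) (by simp; omega)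
      exact this (by exact_mod_cast h)
    · exact hpx h
  have hx0 : (x : ℚ) ≠ 0 := by
    intro h
    have : x = 0 := by exact_mod_cast h
    exact hpx (by rw [this]; exact dvd_zero _)
  refine ⟨fun a b c => ?_, fun a b c => ?_⟩
  · obtain ⟨g1, g2⟩ := m1 a b c
    refine ⟨?_, ?_⟩
    · refine fin_int (SW p) hq hS hX g1 ?_
      push_cast
      field_simp
      ring
    · rw [one_mul]
      refine fin_int (SW p) hq hT hX g2 ?_
      push_cast
      field_simp
      ring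
  · obtain ⟨g1, g2⟩ := m2 a b c
    refine ⟨?_, ?_⟩
    · refine fin_int (SW p) hq hS hX g1 ?_
      push_cast
      field_simp
      ring
    · refine fin_int (SW p) hq (SQ := -5 * T p) (SO := -5 * hyp iv p (4 * i6) (5 * i6) (-4)) ?_ hX g2 ?_
      · rw [map_mul, map_neg, map_ofNat, ← hT]; push_cast; ring
      · push_cast
        field_simp
        ring

theorem leg5_p {p : ℕ} [hp : Fact p.Prime] (h5 : 5 < p) :
    jacobiSym 5 p = if p % 5 = 1 ∨ p % 5 = 4 then 1 else -1 := by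
  rw [← Pool.Agent.H546.leg5 h5]
  exact (jacobiSym.legendreSym.to_jacobiSym p 5).symm

theorem cong_trans {p : ℕ} {a b c : ℚ} (h1 : Cong p a c) (h2 : Cong p b c) : Cong p a b := by
  unfold Cong at *
  have e : (a - b) / (p : ℚ) ^ 2 = (a - c) / (p : ℚ) ^ 2 - (b - c) / (p : ℚ) ^ 2 := by ring
  rw [e]
  exact Nat.Coprime.coprime_dvd_right (Rat.sub_den_dvd _ _) (Nat.Coprime.mul_right h1 h2)

theorem result (p : ℕ) (hp : p.Prime) (h5 : 5 < p) (x y : ℤ) :
    ((p : ℤ) = x ^ 2 + 15 * y ^ 2 →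
      Cong p (S p) (jacobiSym x 3 * (2 * x - p / (2 * x))) ∧
      Cong p (eps p * T p) (jacobiSym x 3 * (2 * x - p / (2 * x))) ∧ Cong p (S p) (eps p * T p)) ∧
    ((p : ℤ) = 5 * x ^ 2 + 3 * y ^ 2 →
      Cong p (S p) (-jacobiSym x 3 * (10 * x - p / (2 * x))) ∧
      Cong p (eps p * T p) (-jacobiSym x 3 * (10 * x - p / (2 * x))) ∧ Cong p (S p) (eps p * T p)) := by
  have : Fact p.Prime := ⟨hp⟩
  have hpz : Prime (p : ℤ) := Nat.prime_iff_prime_int.mp hp
  have np3 : p % 3 ≠ 0 := by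
    intro h0
    have := (Nat.prime_dvd_prime_iff_eq Nat.prime_three hp).mp (Nat.dvd_of_mod_eq_zero h0)
    omega
  have np5 : p % 5 ≠ 0 := by
    intro h0
    have := (Nat.prime_dvd_prime_iff_eq (by norm_num : Nat.Prime 5) hp).mp (Nat.dvd_of_mod_eq_zero h0)
    omega
  have sq3 : ∀ a : ℤ, a % 3 = 0 ∨ (a % 3 ≠ 0 ∧ a ^ 2 % 3 = 1) := by
    intro a
    have h : a % 3 = 0 ∨ a % 3 = 1 ∨ a % 3 = 2 := by omega
    rcases h with h | h | h
    · exact Or.inl h
    · right; refine ⟨by omega, ?_⟩; rw [pow_two, Int.mul_emod, h]; rfl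
    · right; refine ⟨by omega, ?_⟩; rw [pow_two, Int.mul_emod, h]; rfl
  have sq5 : ∀ a : ℤ, a ^ 2 % 5 = 0 ∨ a ^ 2 % 5 = 1 ∨ a ^ 2 % 5 = 4 := by
    intro a
    have h : a % 5 = 0 ∨ a % 5 = 1 ∨ a % 5 = 2 ∨ a % 5 = 3 ∨ a % 5 = 4 := by omega
    rcases h with h | h | h | h | h <;> rw [pow_two, Int.mul_emod, h] <;> norm_num
  refine ⟨fun hxy => ?_, fun hxy => ?_⟩
  · have hx0 : x ≠ 0 := by
      rintro rfl
      apply np5
      omega
    have h3 : ¬ (3 : ℤ) ∣ x := by
      rintro ⟨a, rfl⟩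
      apply np3
      have : (p : ℤ) = 3 * (3 * a ^ 2 + 5 * y ^ 2) := by rw [hxy]; ring
      omega
    have hy : 1 ≤ y ^ 2 := by
      by_contra hlt
      have : y ^ 2 = 0 := by nlinarith [sq_nonneg y]
      rw [this] at hxy
      have hd : (p : ℤ) ∣ x := hpz.dvd_of_dvd_pow (n := 2) (by rw [show x ^ 2 = (p : ℤ) by linarith])
      obtain ⟨a, rfl⟩ := hd
      have h1 : (p : ℤ) * 1 = p * (p * a ^ 2) := by linarith
      have h2 := mul_left_cancel₀ hpz.ne_zero h1
      exact hpz.not_isUnit (IsUnit.of_mul_eq_one _ h2.symm)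
    have hx2 : 1 ≤ x ^ 2 := by
      have : x ^ 2 ≠ 0 := pow_ne_zero 2 hx0
      have := sq_nonneg x
      omega
    have hpx : ¬ (p : ℤ) ∣ x := by
      rintro ⟨a, rfl⟩
      have ha : 1 ≤ a ^ 2 := by
        have : a ≠ 0 := by rintro rfl; exact hx0 (by ring)
        have : a ^ 2 ≠ 0 := pow_ne_zero 2 this
        have := sq_nonneg a
        omega
      have hp1 : (1 : ℤ) < p := by exact_mod_cast hp.one_lt
      have h1 : (p : ℤ) ^ 2 * 1 ≤ (p : ℤ) ^ 2 * a ^ 2 := mul_le_mul_of_nonneg_left ha (sq_nonneg _)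
      have h2 : (p : ℤ) < p ^ 2 := by nlinarith
      have h3' : ((p : ℤ) * a) ^ 2 = (p : ℤ) ^ 2 * a ^ 2 := by ring
      rw [h3'] at hxy
      linarith
    have h16 : 16 ≤ p := by
      have : (16 : ℤ) ≤ p := by rw [hxy]; linarith
      exact_mod_cast this
    have hm3 : p % 3 = 1 := by
      rcases sq3 x with h | ⟨-, h⟩
      · exact absurd (Int.dvd_of_emod_eq_zero h) h3
      · omega
    have hm5 : p % 5 = 1 ∨ p % 5 = 4 := by
      have := sq5 x
      omega
    have hj5 : jacobiSym 5 p = 1 := by rw [leg5_p h5, if_pos hm5]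
    have hl5 : legendreSym p 5 = 1 := by rw [← hj5]; exact jacobiSym.legendreSym.to_jacobiSym p 5
    have hj3 : jacobiSym p 3 = 1 := by
      rcases leg3_p (p := p) (by omega) with h | h
      · exact h.2
      · omega
    have he : eps p = 1 := by rw [eps, hj5, hj3]; norm_num
    obtain ⟨g1, g2⟩ := (main p h16 x y h3 hpx).1 hm3 hl5 hxy
    rw [he]
    exact ⟨g1, g2, cong_trans g1 g2⟩
  · have hx0 : x ≠ 0 := by
      rintro rfl
      apply np3
      omega
    have h3 : ¬ (3 : ℤ) ∣ x := by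
      rintro ⟨a, rfl⟩
      apply np3
      have : (p : ℤ) = 3 * (15 * a ^ 2 + y ^ 2) := by rw [hxy]; ring
      omega
    have hy0 : y ≠ 0 := by
      rintro rfl
      apply np5
      omega
    have hy : 1 ≤ y ^ 2 := by
      have : y ^ 2 ≠ 0 := pow_ne_zero 2 hy0
      have := sq_nonneg y
      omega
    have hx2 : 1 ≤ x ^ 2 := by
      have : x ^ 2 ≠ 0 := pow_ne_zero 2 hx0
      have := sq_nonneg x
      omega
    have hpx : ¬ (p : ℤ) ∣ x := by
      rintro ⟨a, rfl⟩
      have ha : 1 ≤ a ^ 2 := by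
        have : a ≠ 0 := by rintro rfl; exact hx0 (by ring)
        have : a ^ 2 ≠ 0 := pow_ne_zero 2 this
        have := sq_nonneg a
        omega
      have hp1 : (1 : ℤ) < p := by exact_mod_cast hp.one_lt
      have h1 : (p : ℤ) ^ 2 * 1 ≤ (p : ℤ) ^ 2 * a ^ 2 := mul_le_mul_of_nonneg_left ha (sq_nonneg _)
      have h2 : (p : ℤ) < p ^ 2 := by nlinarith
      have h3' : ((p : ℤ) * a) ^ 2 = (p : ℤ) ^ 2 * a ^ 2 := by ring
      rw [h3'] at hxy
      linarith
    have h16 : 16 ≤ p := by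
      by_contra hlt
      have h15 : (p : ℤ) ≤ 15 := by omega
      have hx3 : x ^ 2 < 3 := by nlinarith
      have hx1 : x ^ 2 = 1 := by
        have h1 : x < 2 := by nlinarith
        have h2 : -2 < x := by nlinarith
        interval_cases x <;> omega
      have hy1 : y ^ 2 = 1 := by
        have h1 : y < 2 := by nlinarith
        have h2 : -2 < y := by nlinarith
        interval_cases y <;> omega
      have : p = 8 := by rw [hx1, hy1] at hxy; omega
      rw [this] at hp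
      exact absurd hp (by norm_num)
    have hm3 : p % 3 = 2 := by
      rcases sq3 x with h | ⟨-, h⟩
      · exact absurd (Int.dvd_of_emod_eq_zero h) h3
      · omega
    have hm5 : ¬ (p % 5 = 1 ∨ p % 5 = 4) := by
      have := sq5 y
      omega
    have hj5 : jacobiSym 5 p = -1 := by rw [leg5_p h5, if_neg hm5]
    have hl5 : legendreSym p 5 = -1 := by rw [← hj5]; exact jacobiSym.legendreSym.to_jacobiSym p 5
    have hj3 : jacobiSym p 3 = -1 := by
      rcases leg3_p (p := p) (by omega) with h | h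
      · omega
      · exact h.2
    have he : eps p = -5 := by rw [eps, hj5, hj3]; norm_num
    obtain ⟨g1, g2⟩ := (main p h16 x y h3 hpx).2 hm3 hl5 hxy
    rw [he]
    exact ⟨g1, g2, cong_trans g1 g2⟩

end Pool.Agent.Results.MP_a378b9_nt.MinusFour
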